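import Mathlib

/-!
# Workload differences in the GI/GI/k queue need not be associated
-/

namespace Pool.Agent.Results.MP_d464c7_pr.NotAssociated

open MeasureTheory ProbabilityTheory Filter Topology
open scoped BoundedContinuousFunction

/-- The nondecreasing rearrangement of a vector. -/
noncomputable def rearr {k : ℕ} (x : Fin k → ℝ) : Fin k → ℝ := x ∘ Tuple.sort x

/-- `Re(W_1 + s, W_2, …, W_k)`. -/
noncomputable def load {k : ℕ} [NeZero k] (w : Fin k → ℝ) (s : ℝ) : Fin k → ℝ :=
  rearr fun i => if i = 0 then w i + s else w i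

/-- One step of the Kiefer-Wolfowitz recursion. -/
noncomputable def kw {k : ℕ} [NeZero k] (w : Fin k → ℝ) (s t : ℝ) : Fin k → ℝ :=
  fun i => max (load w s i - t) 0

/-- The workload process of the system which is empty at time `0`. -/
noncomputable def emptyStart {Ω : Type} (k : ℕ) [NeZero k] (S T : ℕ → Ω → ℝ) :
    ℕ → Ω → Fin k → ℝ
  | 0, _ => 0
  | n + 1, ω => kw (emptyStart k S T n ω) (S n ω) (T n ω)

/-- `(S, T, W)` is a stationary GI/GI/k system with traffic intensity smaller than one. -/
structure IsStationaryGIGk (k : ℕ) [NeZero k] {Ω : Type} [MeasurableSpace Ω] (P : Measure Ω)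
    (S T : ℕ → Ω → ℝ) (W : ℕ → Ω → Fin k → ℝ) : Prop where
  measS : ∀ n, Measurable (S n)
  measT : ∀ n, Measurable (T n)
  measW : ∀ n, Measurable (W n)
  nonnegS : ∀ n ω, 0 ≤ S n ω
  nonnegT : ∀ n ω, 0 ≤ T n ω
  /-- all the service times and interarrival times are independent -/
  indep : iIndepFun (fun i : ℕ ⊕ ℕ => Sum.elim S T i) P
  identS : ∀ n, IdentDistrib (S n) (S 0) P P
  identT : ∀ n, IdentDistrib (T n) (T 0) P P
  intS : Integrable (S 0) P
  intT : Integrable (T 0) P
  posS : 0 < ∫ ω, S 0 ω ∂P
  posT : 0 < ∫ ω, T 0 ω ∂P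
  /-- the traffic intensity `ES / (k ET)` is smaller than one -/
  rho : (∫ ω, S 0 ω ∂P) / (k * ∫ ω, T 0 ω ∂P) < 1
  /-- the initial workload is independent of the input -/
  init : IndepFun (W 0) (fun ω => (fun n => S n ω, fun n => T n ω)) P
  recursion : ∀ n ω, W (n + 1) ω = kw (W n ω) (S n ω) (T n ω)
  /-- stationarity -/
  stationary : ∀ n, IdentDistrib (W n) (W 0) P P
  /-- the stationary law is the limit reached from the empty system -/
  limit : ∀ F : (Fin k → ℝ) →ᵇ ℝ,
    Tendsto (fun n => ∫ ω, F (emptyStart k S T n ω) ∂P) atTop (𝓝 (∫ ω, F (W 0 ω) ∂P))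

/-- Association of a finite family of random variables. -/
def IsAssociated {ι Ω : Type} [Fintype ι] [MeasurableSpace Ω] (P : Measure Ω)
    (X : ι → Ω → ℝ) : Prop :=
  ∀ f g : (ι → ℝ) → ℝ, Monotone f → Monotone g → Measurable f → Measurable g →
    (∃ C, ∀ x, |f x| ≤ C) → (∃ C, ∀ x, |g x| ≤ C) →
    0 ≤ (∫ ω, f (fun i => X i ω) * g (fun i => X i ω) ∂P) -
      (∫ ω, f (fun i => X i ω) ∂P) * ∫ ω, g (fun i => X i ω) ∂P

/-- The family `V_{n1}, V_{n2} - V_{n1}, …, V_{nk} - V_{n1}, -T_n`. -/
noncomputable def fam {Ω : Type} {k : ℕ} [NeZero k] (S T : ℕ → Ω → ℝ) (W : ℕ → Ω → Fin k → ℝ)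
    (n : ℕ) : Option (Fin k) → Ω → ℝ
  | none, ω => - T n ω
  | some i, ω => if i = 0 then load (W n ω) (S n ω) 0
      else load (W n ω) (S n ω) i - load (W n ω) (S n ω) 0

/-! ### The example -/

/-- A fair coin. -/
noncomputable def coin : Measure Bool := (1 / 2 : ENNReal) • Measure.dirac true +
  (1 / 2 : ENNReal) • Measure.dirac false

instance : IsProbabilityMeasure coin := by
  constructor
  simp only [coin, Measure.coe_add, Measure.coe_smul, Pi.add_apply, Pi.smul_apply, measure_univ,
    smul_eq_mul, mul_one]
  exact ENNReal.add_halves 1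

/-- Index set of the coins. -/
abbrev I : Type := Option (ℕ ⊕ ℕ)

/-- The probability space. -/
noncomputable def PP : Measure (I → Bool) := Measure.infinitePi fun _ : I => coin

instance : IsProbabilityMeasure PP := by unfold PP; infer_instance

/-- Service times. -/
def SS : ℕ → (I → Bool) → ℝ := fun _ _ => 1

/-- Interarrival times. -/
noncomputable def TT : ℕ → (I → Bool) → ℝ := fun n ω => if ω (some (Sum.inr n)) then 1 / 2 else 1

/-- The coin which determines `W_n`. -/
def cc : ℕ → I
  | 0 => none
  | n + 1 => some (Sum.inr n)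

/-- `0` or `1/2`. -/
noncomputable def hh (b : Bool) : ℝ := if b then 1 / 2 else 0

/-- The workload vectors. -/
noncomputable def WW : ℕ → (I → Bool) → Fin 2 → ℝ := fun n ω => ![0, hh (ω (cc n))]

theorem hh_cases (b : Bool) : hh b = 0 ∨ hh b = 1 / 2 := by
  unfold hh; split_ifs <;> simp

theorem load_eq {x : ℝ} (hx : x ≤ 1) : load ![0, x] 1 = ![x, 1] := by
  have e : (fun i : Fin 2 => if i = 0 then (![0, x] : Fin 2 → ℝ) i + 1 else ![0, x] i) =
      ![1, x] := by
    funext i
    fin_cases i <;> simp
  unfold load rearr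
  rw [e]
  have h1 : (![1, x] : Fin 2 → ℝ) ∘ Equiv.swap (0 : Fin 2) 1 = ![x, 1] := by
    funext i
    fin_cases i <;> simp
  have h2 : Monotone ((![1, x] : Fin 2 → ℝ) ∘ Equiv.swap (0 : Fin 2) 1) := by
    rw [h1]
    intro i j hij
    fin_cases i <;> fin_cases j <;> simp_all
  rw [← Tuple.comp_sort_eq_comp_iff_monotone.mpr h2, h1]

theorem kw_eq (b c : Bool) : kw ![0, hh b] 1 (if c then 1 / 2 else 1) = ![0, hh c] := by
  have hx : hh b ≤ 1 := by rcases hh_cases b with h | h <;> rw [h] <;> norm_num
  funext i
  unfold kw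
  rw [load_eq hx]
  have h0 : 0 ≤ hh b := by rcases hh_cases b with h | h <;> rw [h] <;> norm_num
  have h1 : hh b ≤ 1 / 2 := by rcases hh_cases b with h | h <;> rw [h] <;> norm_num
  fin_cases i
  · cases c
    · simp only [Bool.false_eq_true, if_false]
      show max (hh b - 1) 0 = 0
      exact max_eq_right (by linarith)
    · simp only [if_true]
      show max (hh b - 1 / 2) 0 = 0
      exact max_eq_right (by linarith)
  · cases c
    · simp only [Bool.false_eq_true, if_false]
      show max ((1 : ℝ) - 1) 0 = hh false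
      simp [hh]
    · simp only [if_true]
      show max ((1 : ℝ) - 1 / 2) 0 = hh true
      simp only [hh, if_true]
      norm_num

theorem empty_eq (n : ℕ) (ω : I → Bool) : emptyStart 2 SS TT (n + 1) ω = WW (n + 1) ω := by
  induction n with
  | zero =>
    show kw (emptyStart 2 SS TT 0 ω) (SS 0 ω) (TT 0 ω) = ![0, hh (ω (some (Sum.inr 0)))]
    have e : emptyStart 2 SS TT 0 ω = ![0, hh false] := by
      funext i
      fin_cases i <;> simp [emptyStart, hh]
    rw [e]
    exact kw_eq false (ω (some (Sum.inr 0)))
  | succ n ih =>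
    show kw (emptyStart 2 SS TT (n + 1) ω) (SS (n + 1) ω) (TT (n + 1) ω) =
      ![0, hh (ω (some (Sum.inr (n + 1))))]
    rw [ih]
    exact kw_eq (ω (cc (n + 1))) (ω (some (Sum.inr (n + 1))))

theorem map_coord (c : I) : PP.map (fun ω => ω c) = coin := Measure.infinitePi_map_eval _ c

theorem int_coord (c : I) (φ : Bool → ℝ) : ∫ ω, φ (ω c) ∂PP = (φ true + φ false) / 2 := by
  have h := integral_map (μ := PP) (φ := fun ω : I → Bool => ω c)
    (measurable_pi_apply c).aemeasurable (f := φ)
    (Measurable.of_discrete (f := φ)).aestronglyMeasurable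
  rw [← h, map_coord]
  unfold coin
  rw [integral_add_measure, integral_smul_measure, integral_smul_measure, integral_dirac,
    integral_dirac]
  · simp only [one_div, ENNReal.toReal_inv, ENNReal.toReal_ofNat, smul_eq_mul]
    ring
  · exact (integrable_dirac (by finiteness)).smul_measure (by simp)
  · exact (integrable_dirac (by finiteness)).smul_measure (by simp)

theorem ident_coord {γ : Type} [MeasurableSpace γ] (c d : I) (φ : Bool → γ) :
    IdentDistrib (fun ω : I → Bool => φ (ω c)) (fun ω => φ (ω d)) PP PP := by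
  have h1 : IdentDistrib (fun ω : I → Bool => ω c) (fun ω : I → Bool => ω d) PP PP :=
    ⟨(measurable_pi_apply c).aemeasurable, (measurable_pi_apply d).aemeasurable, by
      rw [map_coord, map_coord]⟩
  exact h1.comp (Measurable.of_discrete (f := φ))

theorem meas_input {X : Type} [MeasurableSpace X] (e : X → I → Bool)
    (h : ∀ n, Measurable fun x => e x (some (Sum.inr n))) :
    Measurable fun x => (fun n => SS n (e x), fun n => TT n (e x)) := by
  refine Measurable.prodMk ?_ ?_
  · exact measurable_pi_lambda _ fun n => measurable_const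
  · refine measurable_pi_lambda _ fun n => ?_
    exact (Measurable.of_discrete (f := fun b : Bool => if b then (1 / 2 : ℝ) else 1)).comp (h n)

theorem stationary_example : IsStationaryGIGk 2 PP SS TT WW where
  measS n := measurable_const
  measT n := (Measurable.of_discrete (f := fun b : Bool => if b then (1 / 2 : ℝ) else 1)).comp
    (measurable_pi_apply (some (Sum.inr n)))
  measW n := (Measurable.of_discrete (f := fun b : Bool => (![0, hh b] : Fin 2 → ℝ))).comp
    (measurable_pi_apply (cc n))
  nonnegS n ω := by simp [SS]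
  nonnegT n ω := by unfold TT; split_ifs <;> norm_num
  indep := by
    have h := iIndepFun_infinitePi (P := fun _ : I => coin)
      (X := fun (i : I) (b : Bool) => Option.elim i (0 : ℝ)
        (Sum.elim (fun _ => 1) (fun _ => if b then 1 / 2 else 1)))
      (fun i => Measurable.of_discrete)
    have h2 := h.precomp (g := (some : ℕ ⊕ ℕ → I)) (Option.some_injective _)
    have e : (fun i : ℕ ⊕ ℕ => Sum.elim SS TT i) = fun (i : ℕ ⊕ ℕ) (ω : I → Bool) =>
        Option.elim (some i) (0 : ℝ)
          (Sum.elim (fun _ => 1) (fun _ => if ω (some i) then 1 / 2 else 1)) := by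
      funext i ω
      cases i <;> rfl
    rw [e]
    exact h2
  identS n := IdentDistrib.refl measurable_const.aemeasurable
  identT n := ident_coord _ _ fun b => if b then (1 / 2 : ℝ) else 1
  intS := integrable_const _
  intT := by
    refine Integrable.of_bound (C := 1) ?_ (Eventually.of_forall fun ω => ?_)
    · exact ((Measurable.of_discrete (f := fun b : Bool => if b then (1 / 2 : ℝ) else 1)).comp
        (measurable_pi_apply (some (Sum.inr 0)))).aestronglyMeasurable
    · unfold TT
      split_ifs <;> norm_num
  posS := by simp [SS]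
  posT := by
    have := int_coord (some (Sum.inr 0)) fun b => if b then (1 / 2 : ℝ) else 1
    unfold TT
    rw [this]
    norm_num
  rho := by
    have := int_coord (some (Sum.inr 0)) fun b => if b then (1 / 2 : ℝ) else 1
    unfold TT
    rw [this]
    simp only [SS, integral_const, probReal_univ, smul_eq_mul, mul_one]
    norm_num
  init := by
    have h := iIndepFun_infinitePi (P := fun _ : I => coin)
      (X := fun (_ : I) (b : Bool) => b) (fun i => measurable_id)
    have hle : ∀ i : I, MeasurableSpace.comap (fun ω : I → Bool => ω i) inferInstance ≤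
        (inferInstance : MeasurableSpace (I → Bool)) := fun i => (measurable_pi_apply i).comap_le
    have h2 := indep_iSup_of_disjoint hle h
      (S := {none}) (T := {none}ᶜ) disjoint_compl_right
    rw [IndepFun_iff_Indep]
    refine indep_of_indep_of_le_left (indep_of_indep_of_le_right h2 ?_) ?_
    · rw [← measurable_iff_comap_le]
      refine @meas_input (I → Bool) (_) id fun n => ?_
      refine Measurable.mono (comap_measurable fun ω : I → Bool => ω (some (Sum.inr n))) ?_ le_rfl
      exact le_iSup₂_of_le (some (Sum.inr n)) (by simp) le_rfl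
    · rw [← measurable_iff_comap_le]
      refine (Measurable.of_discrete (f := fun b : Bool => (![0, hh b] : Fin 2 → ℝ))).comp ?_
      refine Measurable.mono (comap_measurable fun ω : I → Bool => ω none) ?_ le_rfl
      exact le_iSup₂_of_le none (by simp) le_rfl
  recursion n ω := (kw_eq (ω (cc n)) (ω (some (Sum.inr n)))).symm
  stationary n := ident_coord _ _ fun b => (![0, hh b] : Fin 2 → ℝ)
  limit F := by
    have h : ∀ n, ∫ ω, F (emptyStart 2 SS TT (n + 1) ω) ∂PP = ∫ ω, F (WW 0 ω) ∂PP := by
      intro n
      simp only [empty_eq]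
      exact ((ident_coord (cc (n + 1)) (cc 0) fun b => F (![0, hh b] : Fin 2 → ℝ))).integral_eq
    rw [← tendsto_add_atTop_iff_nat 1]
    simp only [h]
    exact tendsto_const_nhds

/-- **Negative answer.**  There is a stationary GI/GI/2 system (with deterministic service times) for
which the family `V_{n1}, V_{n2} - V_{n1}, -T_n` is not associated, for every `n`. -/
theorem result : ∃ (Ω : Type) (_ : MeasurableSpace Ω) (P : Measure Ω)
    (_ : IsProbabilityMeasure P) (S T : ℕ → Ω → ℝ) (W : ℕ → Ω → Fin 2 → ℝ),
    IsStationaryGIGk 2 P S T W ∧ ∀ n, ¬ IsAssociated P (fam S T W n) := by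
  refine ⟨I → Bool, inferInstance, PP, inferInstance, SS, TT, WW, stationary_example, ?_⟩
  intro n hA
  set f : (Option (Fin 2) → ℝ) → ℝ := fun x => if 1 / 2 ≤ x (some 0) then 1 else 0 with hf
  set g : (Option (Fin 2) → ℝ) → ℝ := fun x => if 1 ≤ x (some 1) then 1 else 0 with hg
  have hfm : Monotone f := by
    intro x y hxy
    have := hxy (some 0)
    simp only [hf]
    split_ifs with h1 h2
    · exact le_rfl
    · exact absurd (h1.trans this) h2
    · exact zero_le_one
    · exact le_rfl
  have hgm : Monotone g := by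
    intro x y hxy
    have := hxy (some 1)
    simp only [hg]
    split_ifs with h1 h2
    · exact le_rfl
    · exact absurd (h1.trans this) h2
    · exact zero_le_one
    · exact le_rfl
  have hfM : Measurable f :=
    Measurable.ite (measurableSet_le measurable_const (measurable_pi_apply _)) measurable_const
      measurable_const
  have hgM : Measurable g :=
    Measurable.ite (measurableSet_le measurable_const (measurable_pi_apply _)) measurable_const
      measurable_const
  have hfb : ∃ C, ∀ x, |f x| ≤ C := ⟨1, fun x => by simp only [hf]; split_ifs <;> simp⟩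
  have hgb : ∃ C, ∀ x, |g x| ≤ C := ⟨1, fun x => by simp only [hg]; split_ifs <;> simp⟩
  have h := hA f g hfm hgm hfM hgM hfb hgb
  have hload : ∀ ω : I → Bool, load (WW n ω) (SS n ω) = ![hh (ω (cc n)), 1] := fun ω =>
    load_eq (by rcases hh_cases (ω (cc n)) with h | h <;> rw [h] <;> norm_num)
  have e0 : ∀ ω : I → Bool, fam SS TT WW n (some 0) ω = hh (ω (cc n)) := by
    intro ω
    simp only [fam, if_true, hload]
    rfl
  have e1 : ∀ ω : I → Bool, fam SS TT WW n (some 1) ω = 1 - hh (ω (cc n)) := by
    intro ω
    simp only [fam, hload]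
    rfl
  have ef : ∀ ω : I → Bool, f (fun i => fam SS TT WW n i ω) =
      (fun b : Bool => if b then (1 : ℝ) else 0) (ω (cc n)) := by
    intro ω
    simp only [hf, e0]
    cases ω (cc n) <;> norm_num [hh]
  have eg : ∀ ω : I → Bool, g (fun i => fam SS TT WW n i ω) =
      (fun b : Bool => if b then (0 : ℝ) else 1) (ω (cc n)) := by
    intro ω
    simp only [hg, e1]
    cases ω (cc n) <;> norm_num [hh]
  have efg : ∀ ω : I → Bool, f (fun i => fam SS TT WW n i ω) * g (fun i => fam SS TT WW n i ω) =
      0 := by
    intro ω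
    rw [ef, eg]
    cases ω (cc n) <;> simp
  rw [integral_congr_ae (Eventually.of_forall efg), integral_congr_ae (Eventually.of_forall ef),
    integral_congr_ae (Eventually.of_forall eg),
    int_coord (cc n) (fun b : Bool => if b then (1 : ℝ) else 0),
    int_coord (cc n) (fun b : Bool => if b then (0 : ℝ) else 1)] at h
  norm_num at h

end Pool.Agent.Results.MP_d464c7_pr.NotAssociated
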